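import Pool.Agent.Helper4.It.Goals

/-!
# C1: nonzero coefficients give poles, rational weights
-/

namespace Mono.It

open Finset Filter Topology Mono.Comp

lemma denom_C_mul_c1 {c : ℂ} (hc : c ≠ 0) (f : RatFunc ℂ) :
    (RatFunc.C c * f).denom = f.denom := by
  have h1 : (RatFunc.C c * f).denom ∣ f.denom := by
    have h := RatFunc.denom_mul_dvd (RatFunc.C c) f
    rwa [RatFunc.denom_C, one_mul] at h
  have h2 : f.denom ∣ (RatFunc.C c * f).denom := by
    have h := RatFunc.denom_mul_dvd (RatFunc.C c⁻¹) (RatFunc.C c * f)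
    rw [RatFunc.denom_C, one_mul, ← mul_assoc, ← map_mul, inv_mul_cancel₀ hc, map_one,
      one_mul] at h
    exact h
  exact Polynomial.eq_of_monic_of_associated (RatFunc.monic_denom _) (RatFunc.monic_denom _)
    (associated_of_dvd_dvd h1 h2)

/-- The strata with the weights multiplied by `m`. -/
def intgC1 (m : ℕ) (g : List QStratum) : List Stratum :=
  g.map (fun t => (((m : ℚ) * t.1).num, t.2))

lemma exists_intC1 (g : List QStratum) :
    ∃ m : ℕ, 0 < m ∧ ∀ t ∈ g, ((((m : ℚ) * t.1).num : ℤ) : ℚ) = m * t.1 := by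
  refine ⟨(g.map (fun t => t.1.den)).prod, ?_, ?_⟩
  · apply Nat.pos_of_ne_zero
    intro h0
    have h1 := List.prod_eq_zero_iff.1 h0
    obtain ⟨t, -, ht⟩ := List.mem_map.1 h1
    exact t.1.den_pos.ne' ht
  · intro t ht
    have hd : t.1.den ∣ (g.map (fun t => t.1.den)).prod :=
      List.dvd_prod (List.mem_map_of_mem (f := fun t : QStratum => t.1.den) ht)
    obtain ⟨c, hc⟩ := hd
    have h2 : (((g.map (fun t => t.1.den)).prod : ℕ) : ℚ) * t.1 =
        (((c : ℤ) * t.1.num : ℤ) : ℚ) := by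
      rw [hc]
      push_cast
      have h3 := Rat.mul_den_eq_num t.1
      linear_combination (c : ℚ) * h3
    rw [h2, Rat.num_intCast]

lemma Ze_intgC1 (m : ℕ) (g : List QStratum)
    (h : ∀ t ∈ g, ((((m : ℚ) * t.1).num : ℤ) : ℚ) = m * t.1) (e : ℕ) :
    Ze (intgC1 m g) e = RatFunc.C (m : ℂ) * ZQ g e := by
  classical
  induction g with
  | nil => simp [intgC1, Ze, ZQ]
  | cons t g ih =>
    have ih' := ih (fun t ht => h t (List.mem_cons_of_mem _ ht))
    have ht := h t List.mem_cons_self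
    have ht' : ((((m : ℚ) * t.1).num : ℤ) : ℂ) = (m : ℂ) * (t.1 : ℂ) := by
      have h1 := congrArg (fun x : ℚ => (x : ℂ)) ht
      push_cast at h1
      exact h1
    simp only [intgC1, Ze, ZQ, List.map_cons, List.sum_cons, mul_add] at ih' ⊢
    rw [ih']
    refine congrArg₂ (· + ·) ?_ rfl
    split_ifs with h1
    · rw [ht', map_mul, mul_assoc]
    · simp

lemma coefG_intgC1 (red : Multiset ℝ → (ℝ × ℕ →₀ ℝ)) (m : ℕ) (g : List QStratum)
    (h : ∀ t ∈ g, ((((m : ℚ) * t.1).num : ℤ) : ℚ) = m * t.1) (e : ℕ) :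
    coefG red (intgC1 m g) e = (m : ℝ) • coefQ red g e := by
  classical
  induction g with
  | nil => simp [intgC1, coefG, coefQ]
  | cons t g ih =>
    have ih' := ih (fun t ht => h t (List.mem_cons_of_mem _ ht))
    have ht := h t List.mem_cons_self
    have ht' : ((((m : ℚ) * t.1).num : ℤ) : ℝ) = (m : ℝ) * (t.1 : ℝ) := by
      have h1 := congrArg (fun x : ℚ => (x : ℝ)) ht
      push_cast at h1
      exact h1
    simp only [intgC1, coefG, coefQ, List.map_cons, List.sum_cons, smul_add] at ih' ⊢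
    rw [ih']
    refine congrArg₂ (· + ·) ?_ rfl
    split_ifs with h1
    · rw [ht', smul_smul, mul_assoc]
    · simp

/-- C1. -/
theorem coefPoleQ (h : CoefPole) : CoefPoleQ := by
  intro red hred g hg e x hx
  obtain ⟨m, hm, hmt⟩ := exists_intC1 g
  have hgood : GoodG (intgC1 m g) := by
    intro t ht
    obtain ⟨t', ht', rfl⟩ := List.mem_map.1 ht
    exact hg t' ht'
  have hx' : coefG red (intgC1 m g) e x ≠ 0 := by
    rw [coefG_intgC1 red m g hmt e, Finsupp.smul_apply, smul_eq_mul]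
    exact mul_ne_zero (by exact_mod_cast hm.ne') hx
  have h1 := h red hred (intgC1 m g) hgood e x hx'
  have hmC : (m : ℂ) ≠ 0 := by exact_mod_cast hm.ne'
  rw [Ze_intgC1 m g hmt e, denom_C_mul_c1 hmC] at h1
  exact h1

end Mono.It
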