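import Pool.Agent.Helper4.It.Goals
import Pool.Agent.Helper60.Comp.G9

/-!
# C5: the zeta functions of the strata
-/

namespace Mono.It

open Finset Filter Topology Mono.Comp

lemma ZQ_append_c5 (g h : List QStratum) (e : ℕ) : ZQ (g ++ h) e = ZQ g e + ZQ h e := by
  simp [ZQ]

lemma ZQ_flatMap_c5 {α : Type*} (l : List α) (f : α → List QStratum) (e : ℕ) :
    ZQ (l.flatMap f) e = (l.map fun x => ZQ (f x) e).sum := by
  induction l with
  | nil => simp [ZQ]
  | cons a l ih => rw [List.flatMap_cons, ZQ_append_c5, ih, List.map_cons, List.sum_cons]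

/-- C5. -/
theorem zqComp (h : ZQChart) : ZQComp := by
  intro k A g T hA h0 hnn hg hT
  have key : ∀ I : (i : Fin k) → Fin (g i).length,
      GoodQ (chartStrata (∏ i, ((g i).get (I i)).1) (nuD fun i => ((g i).get (I i)).2)
        (chartA A fun i => ((g i).get (I i)).2) (T I)) ∧ ∀ e : ℕ, 0 < e →
      ZQ (chartStrata (∏ i, ((g i).get (I i)).1) (nuD fun i => ((g i).get (I i)).2)
        (chartA A fun i => ((g i).get (I i)).2) (T I)) e =
      RatFunc.C ((∏ i, ((g i).get (I i)).1 : ℚ) : ℂ) *
        ZDLt e (nuD fun i => ((g i).get (I i)).2) (chartA A fun i => ((g i).get (I i)).2)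
          (T I) := by
    intro I
    have hne : ∀ i, ((g i).get (I i)).2 ≠ [] := fun i => (hg i _ (List.get_mem _ _)).1
    have hpos : ∀ i, ∀ q ∈ ((g i).get (I i)).2, 0 < q.1 ∧ 0 < q.2 :=
      fun i => (hg i _ (List.get_mem _ _)).2
    refine h (dimD fun i => ((g i).get (I i)).2) _ (nuD fun i => ((g i).get (I i)).2)
      (chartA A fun i => ((g i).get (I i)).2) (T I) ?_ ?_ ?_ ?_ (hT I)
    · intro j
      exact (hpos _ _ (List.get_mem _ _)).2
    · exact hA.image _
    · intro h1
      obtain ⟨u, hu, hu0⟩ := Finset.mem_image.1 h1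
      have hu1 : u = 0 := by
        funext i
        obtain ⟨j, hj⟩ := G9.blk_surj (D := fun i => ((g i).get (I i)).2) hne i
        have h2 := congrFun hu0 j
        unfold Mono.Comp.lift at h2
        rw [hj, Pi.zero_apply] at h2
        rcases mul_eq_zero.1 h2 with h3 | h3
        · exfalso
          have h4 : 0 < ND (fun i => ((g i).get (I i)).2) j :=
            (hpos _ _ (List.get_mem _ _)).1
          have h5 : ND (fun i => ((g i).get (I i)).2) j = 0 := by exact_mod_cast h3
          omega
        · exact h3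
      rw [hu1] at hu
      exact h0 hu
    · intro v hv i
      obtain ⟨u, hu, rfl⟩ := Finset.mem_image.1 hv
      unfold Mono.Comp.lift
      exact mul_nonneg (Int.natCast_nonneg _) (hnn u hu _)
  refine ⟨?_, ?_⟩
  · intro t ht
    obtain ⟨I, -, hI⟩ := List.mem_flatMap.1 ht
    exact (key I).1 t hI
  · intro e he
    unfold compStrata ZTs
    rw [ZQ_flatMap_c5, Finset.sum_map_toList]
    exact Finset.sum_congr rfl (fun I _ => (key I).2 e he)

end Mono.It
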